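import Pool.Agent.J4H95.SP.Def

/-!
Project SP of helper95 (MP_b53add_lc): (CNT).
-/

set_option autoImplicit false

namespace Pool.Agent.J4H57.SP

open Finset Pool.Agent.J4H95.SP

theorem t_CNT : S_CNT := by
  intro ε hε
  obtain ⟨t, ht⟩ : ∃ t : ℝ, t = min ((2 : ℝ) ^ (ε / 2) - 1) (1 / 2) := ⟨_, rfl⟩
  have h2 : (1 : ℝ) < (2 : ℝ) ^ (ε / 2) := Real.one_lt_rpow (by norm_num) (by positivity)
  have ht0 : 0 < t := by rw [ht]; exact lt_min (by linarith) (by norm_num)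
  have ht1 : t < 1 := lt_of_le_of_lt (by rw [ht]; exact min_le_right _ _) (by norm_num : (1 / 2 : ℝ) < 1)
  have ht2 : 1 + t ≤ (2 : ℝ) ^ (ε / 2) := by
    have : t ≤ (2 : ℝ) ^ (ε / 2) - 1 := by rw [ht]; exact min_le_left _ _
    linarith
  have hlog : 0 < -Real.log t := by
    have := Real.log_neg ht0 ht1
    linarith
  have hl2 : 0 < Real.log 2 := Real.log_pos (by norm_num)
  refine ⟨ε / 2 * Real.log 2 / (-Real.log t), by positivity, ?_⟩
  intro V _ _
  obtain ⟨N, hN⟩ : ∃ N : ℕ, N = Fintype.card V := ⟨_, rfl⟩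
  obtain ⟨F, hF⟩ : ∃ F : Finset (Finset V), F = univ.filter (fun Z : Finset V =>
    (Z.card : ℝ) ≤ ε / 2 * Real.log 2 / (-Real.log t) * Fintype.card V) := ⟨_, rfl⟩
  rw [← hF, ← hN]
  have h3 : ∀ Z ∈ F, (2 : ℝ) ^ (-(ε / 2 * N)) ≤ t ^ Z.card := by
    intro Z hZ
    rw [hF, mem_filter, ← hN] at hZ
    have h4 : (Z.card : ℝ) * (-Real.log t) ≤ ε / 2 * Real.log 2 * N := by
      have := mul_le_mul_of_nonneg_right hZ.2 hlog.le
      calc (Z.card : ℝ) * (-Real.log t) ≤ ε / 2 * Real.log 2 / (-Real.log t) * N * (-Real.log t) := this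
        _ = ε / 2 * Real.log 2 * N := by
            have hlt : Real.log t ≠ 0 := (neg_pos.mp hlog).ne
            field_simp
    have h5 : t ^ Z.card = Real.exp (Z.card * Real.log t) := by
      rw [← Real.rpow_natCast, Real.rpow_def_of_pos ht0, mul_comm]
    rw [h5, Real.rpow_def_of_pos (by norm_num : (0 : ℝ) < 2), Real.exp_le_exp]
    nlinarith
  have h4 : ∑ Z : Finset V, t ^ Z.card = (1 + t) ^ N := by
    have := Fintype.sum_pow_mul_eq_add_pow V t 1
    simp only [one_pow, mul_one] at this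
    rw [this, hN, add_comm]
  have h5 : (F.card : ℝ) * (2 : ℝ) ^ (-(ε / 2 * N)) ≤ (1 + t) ^ N := by
    rw [← h4, ← nsmul_eq_mul]
    refine (Finset.card_nsmul_le_sum F _ _ h3).trans ?_
    exact Finset.sum_le_sum_of_subset_of_nonneg (Finset.subset_univ _)
      fun _ _ _ => by positivity
  have h6 : (1 + t) ^ N ≤ (2 : ℝ) ^ (ε / 2 * N) := by
    rw [Real.rpow_mul (by norm_num), Real.rpow_natCast]
    exact pow_le_pow_left₀ (by linarith) ht2 N
  have h7 : (2 : ℝ) ^ (ε * (N : ℝ)) = (2 : ℝ) ^ (ε / 2 * N) * (2 : ℝ) ^ (ε / 2 * N) := by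
    rw [← Real.rpow_add (by norm_num)]
    congr 1; ring
  have h8 : (0 : ℝ) < (2 : ℝ) ^ (ε / 2 * N) := Real.rpow_pos_of_pos (by norm_num) _
  rw [Real.rpow_neg (by norm_num)] at h5
  have h9 : (F.card : ℝ) ≤ (1 + t) ^ N * (2 : ℝ) ^ (ε / 2 * N) := by
    rw [← div_eq_mul_inv, div_le_iff₀ h8] at h5
    exact h5
  rw [h7]
  exact h9.trans (mul_le_mul_of_nonneg_right h6 h8.le)

end Pool.Agent.J4H57.SP
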