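import Pool.Agent.J4H95.SP.Def

/-!
Project SP of helper95 (MP_b53add_lc): (DEG).
-/

set_option autoImplicit false

namespace Pool.Agent.J4H57.SP

open Finset Pool.Agent.J4H95.SP

variable {V : Type} [DecidableEq V]

lemma three {l : V} {e : Finset V} (he : e.card = 3) (hl : l ∈ e) :
    ∃ v w, l ≠ v ∧ l ≠ w ∧ v ≠ w ∧ e = {l, v, w} := by
  have h1 : (e.erase l).card = 2 := by rw [card_erase_of_mem hl, he]
  obtain ⟨v, w, hvw, h2⟩ := card_eq_two.mp h1
  have hv : v ∈ e.erase l := by rw [h2]; simp
  have hw : w ∈ e.erase l := by rw [h2]; simp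
  refine ⟨v, w, (ne_of_mem_erase hv).symm, (ne_of_mem_erase hw).symm, hvw, ?_⟩
  rw [← insert_erase hl, h2]

/-- few elements meet all remaining three-element edges at `l` -/
lemma cover (b c : ℕ) (Z : Finset V) (Φ : Finset V → Prop) (l : V) (hl : ¬ U2 b c Z Φ l) :
    ∃ X : Finset V, X.card < 2 * c ∧ l ∉ X ∧ ∀ e, T2 b c Z Φ e → l ∈ e → ∃ x ∈ X, x ∈ e := by
  obtain ⟨P, hP⟩ : ∃ P : ℕ → Prop, P = fun k => ∃ f : Fin k × Bool → V, Function.Injective f ∧
    ∀ i, T2 b c Z Φ {l, f (i, false), f (i, true)} := ⟨_, rfl⟩
  have h0 : P 0 := by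
    rw [hP]
    exact ⟨fun p => p.1.elim0, fun p => p.1.elim0, fun i => i.elim0⟩
  have hne : ∀ v w, T2 b c Z Φ {l, v, w} → l ≠ v ∧ l ≠ w := by
    intro v w h
    have h1 := h.1
    constructor
    · rintro rfl
      have : ({l, l, w} : Finset V).card ≤ 2 := by
        rw [insert_eq_self.mpr (by simp)]
        exact card_le_two
      omega
    · rintro rfl
      have : ({l, v, l} : Finset V).card ≤ 2 := by
        rw [insert_eq_self.mpr (by simp)]
        exact card_le_two
      omega
  have hc : ¬ P c := by
    rw [hP]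
    rintro ⟨f, hf, h⟩
    apply hl
    right
    refine ⟨f, hf, fun i => ?_⟩
    obtain ⟨h1, h2⟩ := hne _ _ (h i)
    obtain ⟨-, h3, h4, h5⟩ := h i
    refine ⟨h1, h2, h3, fun h6 => h4 _ (by simp) (Or.inl h6), fun h6 => h4 _ (by simp) (Or.inl h6),
      h5 _ (by simp) _ (by simp)⟩
  obtain ⟨k, hk, hPk, hPk1⟩ : ∃ k, k < c ∧ P k ∧ ¬ P (k + 1) := by
    by_contra hcon
    push Not at hcon
    apply hc
    have : ∀ j, j ≤ c → P j := by
      intro j
      induction j with
      | zero => intro _; exact h0
      | succ j ih => intro hj; exact hcon j hj (ih (by omega))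
    exact this c le_rfl
  rw [hP] at hPk
  obtain ⟨f, hf, h⟩ := hPk
  refine ⟨univ.image f, ?_, ?_, ?_⟩
  · rw [card_image_of_injective _ hf, card_univ, Fintype.card_prod, Fintype.card_fin,
      Fintype.card_bool]
    omega
  · rw [mem_image]
    rintro ⟨⟨i, s⟩, -, hi⟩
    obtain ⟨h1, h2⟩ := hne _ _ (h i)
    cases s
    · exact h1 hi.symm
    · exact h2 hi.symm
  · intro e he hle
    by_contra hcon
    apply hPk1
    rw [hP]
    obtain ⟨v, w, hlv, hlw, hvw, hevw⟩ := three he.1 hle
    have hX : ∀ p, f p ∉ e := fun p hp => hcon ⟨f p, mem_image_of_mem _ (mem_univ _), hp⟩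
    have hv : ∀ p, f p ≠ v := fun p hp => hX p (by rw [hp, hevw]; simp)
    have hw : ∀ p, f p ≠ w := fun p hp => hX p (by rw [hp, hevw]; simp)
    refine ⟨fun p => Fin.lastCases (motive := fun _ => V) (if p.2 then w else v)
      (fun j => f (j, p.2)) p.1, ?_, ?_⟩
    · rintro ⟨i, s⟩ ⟨j, s'⟩ hij
      induction i using Fin.lastCases with
      | last =>
        induction j using Fin.lastCases with
        | last =>
          simp only [Fin.lastCases_last] at hij
          cases s <;> cases s' <;> simp_all [Ne.symm]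
        | cast j =>
          simp only [Fin.lastCases_last, Fin.lastCases_castSucc] at hij
          exfalso
          cases s
          · exact hv _ (by simpa using hij.symm)
          · exact hw _ (by simpa using hij.symm)
      | cast i =>
        induction j using Fin.lastCases with
        | last =>
          simp only [Fin.lastCases_last, Fin.lastCases_castSucc] at hij
          exfalso
          cases s'
          · exact hv _ (by simpa using hij)
          · exact hw _ (by simpa using hij)
        | cast j =>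
          simp only [Fin.lastCases_castSucc] at hij
          have := hf hij
          rw [Prod.mk.injEq] at this
          rw [this.1, this.2]
    · intro i
      induction i using Fin.lastCases with
      | last =>
        simp only [Fin.lastCases_last, Bool.false_eq_true, if_false, if_true]
        rw [← hevw]
        exact he
      | cast i =>
        simp only [Fin.lastCases_castSucc]
        exact h i

lemma W_symm (Z : Finset V) (Φ : Finset V → Prop) (u v : V) (h : W Z Φ u v) : W Z Φ v u := by
  obtain ⟨h1, h2⟩ := h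
  refine ⟨h1.symm, ?_⟩
  rcases h2 with h2 | ⟨l, hl, h3, h4, h5⟩
  · left; rwa [pair_comm]
  · right; exact ⟨l, hl, h4, h3, by rwa [pair_comm v u]⟩

lemma Q_symm (b c : ℕ) (Z : Finset V) (Φ : Finset V → Prop) (u v : V) (h : Q b c Z Φ u v) :
    Q b c Z Φ v u := by
  obtain ⟨h1, S, hS, h2⟩ := h
  exact ⟨h1.symm, S, hS, fun w hw => by rw [insert_comm]; exact h2 w hw⟩

theorem t_DEG : S_DEG := by
  intro V _ _ b c hb hc Z Φ l E hE
  classical
  by_cases hl : U2 b c Z Φ l
  · -- only `{l}`
    have h1 : E ⊆ {{l}} := by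
      intro e he
      rw [mem_singleton]
      obtain ⟨h2, hle⟩ := hE e he
      rcases h2 with ⟨rfl, -⟩ | ⟨u, rfl, -⟩ | ⟨u, v, rfl, -, hu, hv⟩ | ⟨hT, -⟩
      · simp at hle
      · rw [mem_singleton] at hle; rw [hle]
      · rw [mem_insert, mem_singleton] at hle
        rcases hle with rfl | rfl
        · exact absurd hl hu
        · exact absurd hl hv
      · exact absurd hl (hT.2.2.1 l hle)
    have := card_le_card h1
    rw [card_singleton] at this
    omega
  obtain ⟨X, hXc, hlX, hX⟩ := cover b c Z Φ l hl
  -- neighbours in `W`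
  obtain ⟨A, hA⟩ : ∃ A : Finset V, A = univ.filter (fun v => W Z Φ l v ∧ ¬ U Z Φ v) := ⟨_, rfl⟩
  have hAc : A.card ≤ b := by
    by_contra hcon
    obtain ⟨S, hS1, hS2⟩ := exists_subset_card_eq (show b ≤ A.card by omega)
    apply hl
    left; right
    refine ⟨S, hS2, fun v hv => ?_⟩
    have := hS1 hv
    rw [hA, mem_filter] at this
    exact this.2
  obtain ⟨B, hB⟩ : ∃ B : V → Finset V, B = fun x => univ.filter (fun w => T2 b c Z Φ {l, x, w}) :=
    ⟨_, rfl⟩
  obtain ⟨X', hX'⟩ : ∃ X' : Finset V, X' = X.filter (fun x => ¬ Q b c Z Φ l x) := ⟨_, rfl⟩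
  have hsub : E ⊆ {{l}} ∪ (A.image fun v => ({l, v} : Finset V)) ∪
      (X.image fun v => ({l, v} : Finset V)) ∪
      (X'.biUnion fun x => (B x).image fun w => ({l, x, w} : Finset V)) := by
    intro e he
    simp only [mem_union, mem_singleton, mem_image, mem_biUnion]
    obtain ⟨h2, hle⟩ := hE e he
    -- pairs
    have hpair : ∀ v, (W Z Φ l v ∨ Q b c Z Φ l v) → ¬ U2 b c Z Φ v →
        ((({l, v} : Finset V) = {l} ∨ ∃ a ∈ A, ({l, a} : Finset V) = {l, v}) ∨
          ∃ a ∈ X, ({l, a} : Finset V) = {l, v}) := by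
      intro v hv hv2
      rcases hv with hv | hv
      · left; right
        refine ⟨v, ?_, rfl⟩
        rw [hA, mem_filter]
        exact ⟨mem_univ _, hv, fun h => hv2 (Or.inl (Or.inl h))⟩
      · right
        refine ⟨v, ?_, rfl⟩
        by_contra hvX
        obtain ⟨-, S, hS, h3⟩ := hv
        have h4 : S ⊆ X := by
          intro w hw
          obtain ⟨x, hx, hxe⟩ := hX _ (h3 w hw) (by simp)
          simp only [mem_insert, mem_singleton] at hxe
          rcases hxe with rfl | rfl | rfl
          · exact absurd hx hlX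
          · exact absurd hx hvX
          · exact hx
        have := card_le_card h4
        omega
    rcases h2 with ⟨rfl, -⟩ | ⟨u, rfl, -⟩ | ⟨u, v, rfl, huv, hu, hv⟩ | ⟨hT, hQ⟩
    · simp at hle
    · rw [mem_singleton] at hle
      left; left; left; rw [hle]
    · rw [mem_insert, mem_singleton] at hle
      left
      rcases hle with rfl | rfl
      · exact hpair v huv hv
      · rw [pair_comm]
        refine hpair u ?_ hu
        rcases huv with h | h
        · exact Or.inl (W_symm _ _ _ _ h)
        · exact Or.inr (Q_symm _ _ _ _ _ _ h)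
    · right
      obtain ⟨x, hx, hxe⟩ := hX e hT hle
      have hlx : l ≠ x := fun h => hlX (h ▸ hx)
      obtain ⟨v, w, hlv, hlw, hvw, hevw⟩ := three hT.1 hle
      have hxQ : ¬ Q b c Z Φ l x := hQ l hle x hxe
      refine ⟨x, by rw [hX', mem_filter]; exact ⟨hx, hxQ⟩, ?_⟩
      rw [hevw] at hxe
      simp only [mem_insert, mem_singleton] at hxe
      rcases hxe with rfl | rfl | rfl
      · exact absurd rfl hlx
      · refine ⟨w, ?_, hevw.symm⟩
        rw [hB]; simp only [mem_filter, mem_univ, true_and]
        rw [← hevw]; exact hT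
      · have h5 : e = {l, x, v} := by rw [hevw, pair_comm]
        refine ⟨v, ?_, h5.symm⟩
        rw [hB]; simp only [mem_filter, mem_univ, true_and]
        rw [← h5]; exact hT
  have hBc : ∀ x ∈ X', (B x).card ≤ 2 * c := by
    intro x hx
    by_contra hcon
    obtain ⟨S, hS1, hS2⟩ := exists_subset_card_eq (show 2 * c ≤ (B x).card by omega)
    rw [hX', mem_filter] at hx
    apply hx.2
    refine ⟨fun h => hlX (h ▸ hx.1), S, hS2, fun w hw => ?_⟩
    have := hS1 hw
    rw [hB] at this
    simpa using this
  have h1 : (X'.biUnion fun x => (B x).image fun w => ({l, x, w} : Finset V)).card ≤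
      2 * c * (2 * c) := by
    refine (card_biUnion_le_card_mul _ _ (2 * c) fun x hx => card_image_le.trans (hBc x hx)).trans ?_
    refine Nat.mul_le_mul_right _ ?_
    have : X'.card ≤ X.card := by rw [hX']; exact card_filter_le _ _
    omega
  have h2 : (A.image fun v => ({l, v} : Finset V)).card ≤ b := card_image_le.trans hAc
  have h3 : (X.image fun v => ({l, v} : Finset V)).card ≤ 2 * c := card_image_le.trans hXc.le
  have h4 := card_le_card hsub
  have h5 := card_union_le ({{l}} ∪ (A.image fun v => ({l, v} : Finset V)) ∪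
      (X.image fun v => ({l, v} : Finset V)))
      (X'.biUnion fun x => (B x).image fun w => ({l, x, w} : Finset V))
  have h6 := card_union_le ({{l}} ∪ (A.image fun v => ({l, v} : Finset V)))
      (X.image fun v => ({l, v} : Finset V))
  have h7 := card_union_le ({{l}} : Finset (Finset V)) (A.image fun v => ({l, v} : Finset V))
  rw [card_singleton] at h7
  omega

end Pool.Agent.J4H57.SP
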